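import Pool.Agent.ANO5.A3.Tot.Point
import Pool.Agent.ANO5.Lin.Both

/-!
# ANO5, module Tot: the total degree with the torus functions

`P : TPair S T₀`, `A` hyperbolic.  The third component is
`(crd y - crd y₀, U + V - e)` (the family `cTor`); it starts with `(crd y - crd y₀, t + kap - e)`,
which is connected with `(crd y - crd y₀, t - e)` by the family `cMod`.

* `exists_level_point`: for every `w`, `z`, `y₀`, `e` there is `x` with `DU = DS = 0` at the factors
  where `w` is regular, `x i = z i` at the others, `W` coordinate `y₀`, and `U x + V x = e`;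
* `total_full_one`, `total_full_zero`: the total degrees for regular types, if `N` is a point.
-/

set_option autoImplicit false

open scoped UpperHalfPlane
open Set Filter Topology

namespace Pool.Agent.ANO5.A3.Tot

open Pool.Agent.ANO2 (SurfaceMap)
open Pool.Agent.ANO3 (Flat)
open Pool.Agent.ANO5.A1 Pool.Agent.ANO5.A3.Conn Pool.Agent.ANO3.Tree Pool.Agent.ANO5.Lin
open Pool.Agent.ANO5.Tor (B)
open Pool.Agent.ANO3.Tot (cl continuous_cl cl_zero cl_one)

variable [TFib] {r : ℕ} {S : Fin r → SurfaceMap} {F : ∀ i, Flat (S i)} {T₀ T : X r ≃ₜ X r}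

/-- The family with the torus functions. -/
noncomputable def cTor (P : TPair S T₀) (T : X r ≃ₜ X r) (y₀ : TFib.base.W)
    (e : Fin TFib.k → ℝ) (t : ℝ) (x : X r) : Fib.V :=
  (TFib.base.crd x.2.1 - TFib.base.crd y₀, P.UI T (cl t, x) + P.VI T (cl t, x) - e)

/-- The family for the model. -/
noncomputable def cMod (P : TPair S T₀) (y₀ : TFib.base.W) (e : Fin TFib.k → ℝ) (s : ℝ)
    (x : X r) : Fib.V :=
  (TFib.base.crd x.2.1 - TFib.base.crd y₀, x.2.2 + s • P.kap (x.1, x.2.1) - e)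

theorem continuous_cTor (P : TPair S T₀) (h : Setting S T₀ T) (y₀ : TFib.base.W)
    (e : Fin TFib.k → ℝ) : Continuous fun p : ℝ × X r => cTor P T y₀ e p.1 p.2 := by
  have h1 : Continuous fun p : ℝ × X r => (cl p.1, p.2) :=
    (continuous_cl.comp continuous_fst).prodMk continuous_snd
  refine Continuous.prodMk ?_ ?_
  · exact (TFib.base.crd.continuous.comp
      (continuous_fst.comp (continuous_snd.comp continuous_snd))).sub continuous_const
  · exact (((P.continuous_UI h).comp h1).add ((P.continuous_VI h).comp h1)).sub continuous_const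

theorem continuous_cMod (P : TPair S T₀) (h : Setting S T₀ T) (y₀ : TFib.base.W)
    (e : Fin TFib.k → ℝ) : Continuous fun p : ℝ × X r => cMod P y₀ e p.1 p.2 := by
  have h1 : Continuous fun p : ℝ × X r => ((p.2.1, p.2.2.1) : B r) :=
    (continuous_fst.comp continuous_snd).prodMk
      (continuous_fst.comp (continuous_snd.comp continuous_snd))
  refine Continuous.prodMk ?_ ?_
  · exact (TFib.base.crd.continuous.comp
      (continuous_fst.comp (continuous_snd.comp continuous_snd))).sub continuous_const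
  · exact ((continuous_snd.comp (continuous_snd.comp continuous_snd)).add
      (continuous_fst.smul ((P.continuous_kap (setting_self h)).comp h1))).sub continuous_const

theorem bdd_cTor (P : TPair S T₀) (h : Setting S T₀ T) (y₀ : TFib.base.W)
    (e : Fin TFib.k → ℝ) : Bdd (cTor P T y₀ e) := by
  intro K hK
  obtain ⟨κ, C, hκ, hC⟩ := P.near h
  have hKc : IsCompact ((univ.pi K) ×ˢ {y₀} : Set (B r)) :=
    (isCompact_univ_pi hK).prod isCompact_singleton
  obtain ⟨C', hC'⟩ := hKc.exists_bound_of_continuousOn hκ.continuousOn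
  refine ⟨({y₀} ×ˢ Metric.closedBall 0 (‖e‖ + C + C') : Set (TFib.base.W × (Fin TFib.k → ℝ))),
    isCompact_singleton.prod (isCompact_closedBall _ _), fun t _ x hx h0 => ?_⟩
  have h1 : TFib.base.crd x.2.1 - TFib.base.crd y₀ = 0 := congrArg Prod.fst h0
  have h2 : P.UI T (cl t, x) + P.VI T (cl t, x) - e = 0 := congrArg Prod.snd h0
  have h3 : x.2.1 = y₀ := TFib.base.crd.injective (sub_eq_zero.1 h1)
  refine ⟨h3, ?_⟩
  rw [mem_closedBall_zero_iff]
  have h4 := hC (cl t, x)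
  rw [sub_eq_zero.1 h2] at h4
  have h5 := hC' (x.1, x.2.1) ⟨fun i _ => hx i, h3⟩
  change ‖e - (x.2.2 + κ (x.1, x.2.1))‖ ≤ C at h4
  have h6 : x.2.2 = e - (e - (x.2.2 + κ (x.1, x.2.1))) - κ (x.1, x.2.1) := by abel
  calc ‖x.2.2‖ = ‖e - (e - (x.2.2 + κ (x.1, x.2.1))) - κ (x.1, x.2.1)‖ := by rw [← h6]
    _ ≤ ‖e - (e - (x.2.2 + κ (x.1, x.2.1)))‖ + ‖κ (x.1, x.2.1)‖ := norm_sub_le _ _
    _ ≤ (‖e‖ + ‖e - (x.2.2 + κ (x.1, x.2.1))‖) + ‖κ (x.1, x.2.1)‖ := by
        gcongr
        exact norm_sub_le _ _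
    _ ≤ ‖e‖ + C + C' := by
        gcongr

theorem bdd_cMod (P : TPair S T₀) (h : Setting S T₀ T) (y₀ : TFib.base.W)
    (e : Fin TFib.k → ℝ) : Bdd (cMod P y₀ e) := by
  intro K hK
  have hKc : IsCompact ((univ.pi K) ×ˢ {y₀} : Set (B r)) :=
    (isCompact_univ_pi hK).prod isCompact_singleton
  obtain ⟨C', hC'⟩ := hKc.exists_bound_of_continuousOn
    (P.continuous_kap (setting_self h)).continuousOn
  refine ⟨({y₀} ×ˢ Metric.closedBall 0 (‖e‖ + C') : Set (TFib.base.W × (Fin TFib.k → ℝ))),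
    isCompact_singleton.prod (isCompact_closedBall _ _), fun s hs x hx h0 => ?_⟩
  have h1 : TFib.base.crd x.2.1 - TFib.base.crd y₀ = 0 := congrArg Prod.fst h0
  have h2 : x.2.2 + s • P.kap (x.1, x.2.1) - e = 0 := congrArg Prod.snd h0
  have h3 : x.2.1 = y₀ := TFib.base.crd.injective (sub_eq_zero.1 h1)
  refine ⟨h3, ?_⟩
  rw [mem_closedBall_zero_iff]
  have h5 := hC' (x.1, x.2.1) ⟨fun i _ => hx i, h3⟩
  have h6 : x.2.2 = e - s • P.kap (x.1, x.2.1) := by
    rw [← sub_eq_zero, ← h2]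
    abel
  rw [h6]
  refine (norm_sub_le _ _).trans ?_
  gcongr
  rw [norm_smul, Real.norm_eq_abs, abs_of_nonneg hs.1]
  calc s * ‖P.kap (x.1, x.2.1)‖ ≤ 1 * ‖P.kap (x.1, x.2.1)‖ :=
        mul_le_mul_of_nonneg_right hs.2 (norm_nonneg _)
    _ = ‖P.kap (x.1, x.2.1)‖ := one_mul _
    _ ≤ C' := h5

theorem cMod_one (P : TPair S T₀) (h : Setting S T₀ T) (y₀ : TFib.base.W)
    (e : Fin TFib.k → ℝ) (x : X r) : cMod P y₀ e 1 x = cTor P T y₀ e 0 x := by
  refine Prod.ext rfl ?_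
  show x.2.2 + (1 : ℝ) • P.kap (x.1, x.2.1) - e = P.UI T (cl 0, x) + P.VI T (cl 0, x) - e
  rw [cl_zero, P.UI_zero, P.VI_zero, one_smul]
  congr 1
  exact (P.model_eq (setting_self h) x.1 x.2.1 x.2.2).symm

theorem cMod_zero (P : TPair S T₀) (y₀ : TFib.base.W) (e : Fin TFib.k → ℝ) (x : X r) :
    cMod P y₀ e 0 x = ContinuousLinearEquiv.refl ℝ Fib.V (Fib.crd x.2) -
      ((TFib.base.crd y₀, e) : TFib.base.V × (Fin TFib.k → ℝ)) := by
  refine Prod.ext rfl ?_
  show x.2.2 + (0 : ℝ) • P.kap (x.1, x.2.1) - e = x.2.2 - e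
  rw [zero_smul, add_zero]

theorem cTor_one (P : TPair S T₀) (y₀ : TFib.base.W) (e : Fin TFib.k → ℝ) (x : X r) :
    cTor P T y₀ e 1 x = ((TFib.base.crd x.2.1 - TFib.base.crd y₀,
      P.U T x + P.V T x - e) : TFib.base.V × (Fin TFib.k → ℝ)) := by
  refine Prod.ext rfl ?_
  show P.UI T (cl 1, x) + P.VI T (cl 1, x) - e = _
  rw [cl_one, P.UI_one, P.VI_one]

/-- A point with given data and given values of the torus functions. -/
theorem exists_level_point (P : TPair S T₀) (h : Setting S T₀ T) [Nontrivial (E r)]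
    (w z : Fin r → ℍ) (y₀ : TFib.base.W) (e : Fin TFib.k → ℝ) :
    ∃ x : X r, (∀ i, ((F i).Reg (w i) → DU F T i (Sum.inl (w i)) (Sum.inr x) = 0 ∧
      DS F T i (Sum.inl (w i)) (Sum.inr x) = 0) ∧ (¬ (F i).Reg (w i) → x.1 i = z i)) ∧
      x.2.1 = y₀ ∧ P.U T x + P.V T x = e := by
  obtain ⟨x, hx, hy⟩ := exists_point (F := F) h w z (continuous_cTor P h y₀ e)
    (bdd_cTor P h y₀ e) (continuous_cMod P h y₀ e) (bdd_cMod P h y₀ e)
    (cMod_one P h y₀ e) (ContinuousLinearEquiv.refl ℝ Fib.V)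
    ((TFib.base.crd y₀, e) : TFib.base.V × (Fin TFib.k → ℝ)) (cMod_zero P y₀ e)
  rw [cTor_one] at hy
  have h1 : TFib.base.crd x.2.1 - TFib.base.crd y₀ = 0 := congrArg Prod.fst hy
  have h2 : P.U T x + P.V T x - e = 0 := congrArg Prod.snd hy
  exact ⟨x, hx, TFib.base.crd.injective (sub_eq_zero.1 h1), sub_eq_zero.1 h2⟩

/-- The same for a full type: the points of `NN F T w w` at a given level meet every fibre. -/
theorem exists_level_NN (P : TPair S T₀) (h : Setting S T₀ T) [Nontrivial (E r)]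
    {w : Fin r → ℍ} (hw : IsFull F w) (z : Fin r → ℍ) (y₀ : TFib.base.W)
    (e : Fin TFib.k → ℝ) :
    ∃ x ∈ NN F T w w, (∀ i, (F i).U = ∅ → x.1 i = z i) ∧ x.2.1 = y₀ ∧
      P.U T x + P.V T x = e := by
  obtain ⟨x, hx, hy, he⟩ := exists_level_point (F := F) P h w z y₀ e
  exact ⟨x, mem_NN_of_full h hw fun i hi => (hx i).1 hi,
    fun i hi => (hx i).2 (not_reg_of_void hi _), hy, he⟩

section Full

variable {VU VS : Type} [NormedAddCommGroup VU] [NormedSpace ℝ VU] [NormedAddCommGroup VS]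
  [NormedSpace ℝ VS] {E₁ E₂ : Type} [NormedAddCommGroup E₁] [NormedSpace ℝ E₁]
  [NormedAddCommGroup E₂] [NormedSpace ℝ E₂] [FiniteDimensional ℝ E₁] [FiniteDimensional ℝ E₂]
  [Nontrivial (E₁ × E₂)]

/-- The change of the order of the components, if `N` is a point. -/
noncomputable def reord (hN : Subsingleton TFib.base.V)
    (J : (VU × VS) ≃L[ℝ] (Fin TFib.k → ℝ)) :
    (R r × R r × Fib.V) ≃L[ℝ] (R r × VU) × (R r × VS) where
  toFun q := ((q.1, (J.symm q.2.2.2).1), (q.2.1, (J.symm q.2.2.2).2))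
  invFun q := (q.1.1, q.2.1, ((0 : TFib.base.V), J (q.1.2, q.2.2)))
  map_add' q q' := by
    have h1 : J.symm (q + q').2.2.2 = J.symm q.2.2.2 + J.symm q'.2.2.2 :=
      map_add J.symm q.2.2.2 q'.2.2.2
    rw [h1]
    rfl
  map_smul' c q := by
    have h1 : J.symm (c • q).2.2.2 = c • J.symm q.2.2.2 := map_smul J.symm c q.2.2.2
    rw [h1]
    rfl
  left_inv q := by
    refine Prod.ext rfl (Prod.ext rfl (Prod.ext (Subsingleton.elim _ _) ?_))
    exact J.apply_symm_apply q.2.2.2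
  right_inv q := by
    refine Prod.ext (Prod.ext rfl ?_) (Prod.ext rfl ?_)
    · show (J.symm (J (q.1.2, q.2.2))).1 = q.1.2
      rw [J.symm_apply_apply]
    · show (J.symm (J (q.1.2, q.2.2))).2 = q.2.2
      rw [J.symm_apply_apply]
  continuous_toFun := by
    have h1 : Continuous fun q : R r × R r × (TFib.base.V × (Fin TFib.k → ℝ)) =>
        J.symm q.2.2.2 := J.symm.continuous.comp
      (continuous_snd.comp (continuous_snd.comp continuous_snd))
    exact (continuous_fst.prodMk (continuous_fst.comp h1)).prodMk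
      ((continuous_fst.comp continuous_snd).prodMk (continuous_snd.comp h1))
  continuous_invFun := by
    have h1 : Continuous fun q : (R r × VU) × (R r × VS) => J (q.1.2, q.2.2) :=
      J.continuous.comp ((continuous_snd.comp continuous_fst).prodMk
        (continuous_snd.comp continuous_snd))
    exact (continuous_fst.comp continuous_fst).prodMk
      ((continuous_fst.comp continuous_snd).prodMk (continuous_const.prodMk h1))

variable {TU' : X r → VU} {TS' : X r → VS} {J : (VU × VS) ≃L[ℝ] (Fin TFib.k → ℝ)}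

private theorem full_eq_Torus (hN : Subsingleton TFib.base.V) (P : TPair S T₀)
    (hJ : ∀ x, J (TU' x, TS' x) = P.U T x + P.V T x)
    (Θ : ((R r × VU) × (R r × VS)) ≃L[ℝ] E₁ × E₂) (w' w'' z : Fin r → ℍ) (c' : VU) (c'' : VS)
    (y₀ : TFib.base.W) (hw' : ∀ i, (F i).Reg (w' i)) (hw'' : ∀ i, (F i).Reg (w'' i)) (x : X r) :
    ((reord hN J).trans Θ) (mixU F T₀ T w' z 1 x, mixS F T₀ T w'' z 1 x,
      cTor P T y₀ (J (c', c'')) 1 x) =
      Θ ((fun i => su F T i (w' i) x, TU' x - c'), (fun i => ss F T i (w'' i) x, TS' x - c'')) := by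
  rw [cTor_one, mixU_eq hw', mixS_eq hw'', ← hJ, ← map_sub J]
  show Θ ((_, (J.symm (J _)).1), (_, (J.symm (J _)).2)) = _
  rw [J.symm_apply_apply]
  rfl

/-- The model leaves meet: the total degree is `± 1`. -/
theorem total_full_one (hN : Subsingleton TFib.base.V) (P : TPair S T₀) (h : Setting S T₀ T)
    (hJ : ∀ x, J (TU' x, TS' x) = P.U T x + P.V T x) (C₀ : E r ≃L[ℝ] E₁ × E₂)
    (Θ : ((R r × VU) × (R r × VS)) ≃L[ℝ] E₁ × E₂) {w' w'' : Fin r → ℍ}
    (hw' : ∀ i, (F i).Reg (w' i)) (hw'' : ∀ i, (F i).Reg (w'' i)) (c' : VU) (c'' : VS)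
    (hz : ∀ i, ∃ z, (F i).du (w' i) z = 0 ∧ (F i).ds (w'' i) z = 0) :
    Total C₀ (fun x => Θ ((fun i => su F T i (w' i) x, TU' x - c'),
      (fun i => ss F T i (w'' i) x, TS' x - c''))) 1 := by
  choose z hz using hz
  obtain ⟨y₀⟩ := @Fib.nonempty TFib.base
  have h1 := total_mix (F := F) (T₀ := T₀) (T := T) h C₀ ((reord hN J).trans Θ) (w' := w')
    (w'' := w'') (z := z) (fun i => ⟨fun _ => hw'' i, fun _ => hw' i⟩) (fun i _ => hz i)
    (continuous_cTor P h y₀ (J (c', c''))) (bdd_cTor P h y₀ (J (c', c'')))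
    (continuous_cMod P h y₀ (J (c', c''))) (bdd_cMod P h y₀ (J (c', c'')))
    (cMod_one P h y₀ (J (c', c''))) (ContinuousLinearEquiv.refl ℝ Fib.V)
    ((TFib.base.crd y₀, J (c', c'')) : TFib.base.V × (Fin TFib.k → ℝ))
    (cMod_zero P y₀ (J (c', c'')))
  simpa only [full_eq_Torus hN P hJ Θ w' w'' z c' c'' y₀ hw' hw''] using h1

/-- The pair `(w, w)` has total degree `± 1`. -/
theorem total_full_self (hN : Subsingleton TFib.base.V) (P : TPair S T₀) (h : Setting S T₀ T)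
    (hJ : ∀ x, J (TU' x, TS' x) = P.U T x + P.V T x) (C₀ : E r ≃L[ℝ] E₁ × E₂)
    (Θ : ((R r × VU) × (R r × VS)) ≃L[ℝ] E₁ × E₂) {w : Fin r → ℍ}
    (hw : ∀ i, (F i).Reg (w i)) (c' : VU) (c'' : VS) :
    Total C₀ (fun x => Θ ((fun i => su F T i (w i) x, TU' x - c'),
      (fun i => ss F T i (w i) x, TS' x - c''))) 1 :=
  total_full_one hN P h hJ C₀ Θ hw hw c' c'' fun i =>
    ⟨w i, (F i).isTree_u.self _, (F i).isTree_s.self _⟩

/-- Some of the model leaves do not meet: the total degree is `0`. -/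
theorem total_full_zero (hN : Subsingleton TFib.base.V) (P : TPair S T₀) (h : Setting S T₀ T)
    (hJ : ∀ x, J (TU' x, TS' x) = P.U T x + P.V T x) (C₀ : E r ≃L[ℝ] E₁ × E₂)
    (Θ : ((R r × VU) × (R r × VS)) ≃L[ℝ] E₁ × E₂) {w' w'' : Fin r → ℍ}
    (hw' : ∀ i, (F i).Reg (w' i)) (hw'' : ∀ i, (F i).Reg (w'' i)) (c' : VU) (c'' : VS)
    {i : Fin r} (hz : ∀ z, ¬ ((F i).du (w' i) z = 0 ∧ (F i).ds (w'' i) z = 0)) :
    Total C₀ (fun x => Θ ((fun i => su F T i (w' i) x, TU' x - c'),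
      (fun i => ss F T i (w'' i) x, TS' x - c''))) 0 := by
  obtain ⟨y₀⟩ := @Fib.nonempty TFib.base
  have h1 := total_mix_zero (F := F) (T₀ := T₀) (T := T) h C₀ ((reord hN J).trans Θ) (w' := w')
    (w'' := w'') (z := w') (fun i => ⟨fun _ => hw'' i, fun _ => hw' i⟩) (hw' i) hz
    (continuous_cTor P h y₀ (J (c', c''))) (bdd_cTor P h y₀ (J (c', c'')))
  simpa only [full_eq_Torus hN P hJ Θ w' w'' w' c' c'' y₀ hw' hw''] using h1

end Full

end Pool.Agent.ANO5.A3.Tot
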