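import Pool.Agent.ANO5.A3.Tot.Hom
import Pool.Agent.ANO3.Tot.Loc

/-!
# ANO5, module Tot: product maps with one regular zero

`f i`, `g i` are functions on `ℍ` which form a local diffeomorphism at their only common zero
`z i` (`ANO3.Tot.LocReg`), and `Λ` is a linear isomorphism of the space `V` of the coordinates of
`W`.  The map `x ↦ (f i (x i), g i (x i), Λ (crd x.2) - c)` has total degree `± 1`.
-/

set_option autoImplicit false

open scoped UpperHalfPlane
open Set Filter Topology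

namespace Pool.Agent.ANO5.A3.Tot

open Pool.Agent.ANO5.A1 Pool.Agent.ANO5.A3.Conn Pool.Agent.ANO3.Tot

/-- The space of the values of the first and of the second functions. -/
abbrev R (r : ℕ) : Type := Fin r → ℝ

variable [Fib] {r : ℕ} {E₁ E₂ : Type} [NormedAddCommGroup E₁] [NormedSpace ℝ E₁]
  [NormedAddCommGroup E₂] [NormedSpace ℝ E₂] [FiniteDimensional ℝ E₁] [FiniteDimensional ℝ E₂]
  {V' : Type} [NormedAddCommGroup V'] [NormedSpace ℝ V']

/-- The product map. -/
noncomputable def prod (Θ : (R r × R r × V') ≃L[ℝ] E₁ × E₂) (Λ : Fib.V ≃L[ℝ] V')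
    (f g : Fin r → ℍ → ℝ) (c : V') (x : X r) : E₁ × E₂ :=
  Θ (fun i => f i (x.1 i), fun i => g i (x.1 i), Λ (Fib.crd x.2) - c)

theorem model_reg (C₀ : E r ≃L[ℝ] E₁ × E₂) (Θ : (R r × R r × V') ≃L[ℝ] E₁ × E₂)
    (Λ : Fib.V ≃L[ℝ] V')
    {f g : Fin r → ℍ → ℝ} {z : Fin r → ℍ} (h : ∀ i, LocReg (f i) (g i) (z i)) (c : V')
    (y : Fib.W) :
    ∃ V ∈ 𝓝 (C₀ (toE ((z, y) : X r))),
      ContDiffOn ℝ 1 (hat C₀ (prod Θ Λ f g c)) V ∧
      (fderiv ℝ (hat C₀ (prod Θ Λ f g c)) (C₀ (toE ((z, y) : X r)))).det ≠ 0 := by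
  choose D hz h1 h2 σ τ hσ hτ h3 using h
  set Φ : E₁ × E₂ → E₁ × E₂ := hat C₀ (prod Θ Λ f g c) with hΦ
  set P : E r → R r × R r × V' := fun e =>
    (fun i => σ i * (D i (e.1 i) - D i (z i)).re, fun i => τ i * (D i (e.1 i) - D i (z i)).im,
      Λ e.2 - c) with hP
  set W : Set (E r) := {e | ∀ i, e.1 i ∈ (D i).source ∧ 0 < (e.1 i).im} with hW
  have hWo : IsOpen W := by
    have e : W = ⋂ i, {e : E r | e.1 i ∈ (D i).source ∧ 0 < (e.1 i).im} := by
      ext e
      simp [hW]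
    rw [e]
    refine isOpen_iInter_of_finite fun i => ?_
    have hc : Continuous fun e : E r => e.1 i := (continuous_apply i).comp continuous_fst
    exact ((D i).open_source.preimage hc).inter
      (isOpen_lt continuous_const (Complex.continuous_im.comp hc))
  have hzW : toE ((z, y) : X r) ∈ W := fun i => ⟨hz i, (z i).im_pos⟩
  have hVo : IsOpen (C₀.symm ⁻¹' W) := hWo.preimage C₀.symm.continuous
  have hzV : C₀ (toE ((z, y) : X r)) ∈ C₀.symm ⁻¹' W := by
    rw [mem_preimage, ContinuousLinearEquiv.symm_apply_apply]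
    exact hzW
  have hEq : ∀ y ∈ C₀.symm ⁻¹' W, Φ y = Θ (P (C₀.symm y)) := by
    intro y hy
    have h4 : ∀ i, ((UpperHalfPlane.ofComplex ((C₀.symm y).1 i) : ℍ) : ℂ) = (C₀.symm y).1 i :=
      fun i => UpperHalfPlane.ofComplex_apply_of_im_pos (hy i).2 ▸ rfl
    rw [hΦ, hat, prod]
    congr 1
    refine Prod.ext (funext fun i => ?_) (Prod.ext (funext fun i => ?_) ?_)
    · have h5 := (h3 i (UpperHalfPlane.ofComplex ((C₀.symm y).1 i))
        (by rw [h4]; exact (hy i).1)).1
      rw [h4] at h5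
      exact h5
    · have h5 := (h3 i (UpperHalfPlane.ofComplex ((C₀.symm y).1 i))
        (by rw [h4]; exact (hy i).1)).2
      rw [h4] at h5
      exact h5
    · show Λ (Fib.crd (Fib.crd.symm (C₀.symm y).2)) - c = Λ (C₀.symm y).2 - c
      rw [Homeomorph.apply_symm_apply]
  have hPs : ContDiffOn ℝ 1 P W := by
    have h4 : ∀ i, ContDiffOn ℝ 1 (fun e : E r => D i (e.1 i) - D i (z i)) W := fun i => by
      refine ContDiffOn.sub ?_ contDiffOn_const
      refine (h1 i).comp (s := W) (f := fun e : E r => e.1 i) ?_ fun e he => (he i).1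
      fun_prop
    refine ContDiffOn.prodMk ?_ (ContDiffOn.prodMk ?_ ?_)
    · refine contDiffOn_pi.2 fun i => ContDiffOn.mul contDiffOn_const ?_
      exact Complex.reCLM.contDiff.comp_contDiffOn (h4 i)
    · refine contDiffOn_pi.2 fun i => ContDiffOn.mul contDiffOn_const ?_
      exact Complex.imCLM.contDiff.comp_contDiffOn (h4 i)
    · exact ((Λ.contDiff.comp contDiff_snd).sub contDiff_const).contDiffOn
  refine ⟨C₀.symm ⁻¹' W, hVo.mem_nhds hzV, ?_, ?_⟩
  · refine ContDiffOn.congr (f := fun y => Θ (P (C₀.symm y))) ?_ hEq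
    exact Θ.contDiff.comp_contDiffOn (hPs.comp C₀.symm.contDiff.contDiffOn fun y hy => hy)
  · choose D' hD' hinj using fun i => chart_deriv (hz i) (h1 i) (h2 i)
    set e₀ : E r := toE ((z, y) : X r) with he₀
    have hP' : ∃ P' : E r →L[ℝ] R r × R r × V', HasFDerivAt P P' e₀ ∧
        ∀ v, P' v = 0 → v = 0 := by
      have h5 : ∀ i, HasFDerivAt (fun e : E r => D i (e.1 i) - D i (z i))
          (D' i ∘L (ContinuousLinearMap.proj i ∘L ContinuousLinearMap.fst ℝ (Fin r → ℂ)
            Fib.V)) e₀ := fun i => by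
        refine HasFDerivAt.sub_const _ ?_
        exact (hD' i).comp e₀ (ContinuousLinearMap.proj i ∘L ContinuousLinearMap.fst ℝ (Fin r → ℂ)
            Fib.V).hasFDerivAt
      have h6 : ∀ i, HasFDerivAt (fun e : E r => σ i * (D i (e.1 i) - D i (z i)).re)
          (σ i • (Complex.reCLM ∘L (D' i ∘L (ContinuousLinearMap.proj i ∘L
            ContinuousLinearMap.fst ℝ (Fin r → ℂ) Fib.V)))) e₀ := fun i =>
        (Complex.reCLM.hasFDerivAt.comp e₀ (h5 i)).const_mul (σ i)
      have h7 : ∀ i, HasFDerivAt (fun e : E r => τ i * (D i (e.1 i) - D i (z i)).im)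
          (τ i • (Complex.imCLM ∘L (D' i ∘L (ContinuousLinearMap.proj i ∘L
            ContinuousLinearMap.fst ℝ (Fin r → ℂ) Fib.V)))) e₀ := fun i =>
        (Complex.imCLM.hasFDerivAt.comp e₀ (h5 i)).const_mul (τ i)
      have h8 : HasFDerivAt (fun e : E r => Λ e.2 - c)
          ((Λ : Fib.V →L[ℝ] V') ∘L ContinuousLinearMap.snd ℝ (Fin r → ℂ) Fib.V) e₀ := by
        refine HasFDerivAt.sub_const _ ?_
        exact ((Λ : Fib.V →L[ℝ] V') ∘L
          ContinuousLinearMap.snd ℝ (Fin r → ℂ) Fib.V).hasFDerivAt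
      refine ⟨_, (hasFDerivAt_pi.2 h6).prodMk ((hasFDerivAt_pi.2 h7).prodMk h8),
        fun v hv => ?_⟩
      refine Prod.ext (funext fun i => ?_) ?_
      · have h9 := congrFun (congrArg Prod.fst hv) i
        have h10 := congrFun (congrArg (fun q => q.2.1) hv) i
        refine hinj i (v.1 i) (Complex.ext ?_ ?_)
        · exact (mul_eq_zero.1 h9).resolve_left (hσ i)
        · exact (mul_eq_zero.1 h10).resolve_left (hτ i)
      · have h9 : Λ v.2 = 0 := congrArg (fun q => q.2.2) hv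
        exact Λ.map_eq_zero_iff.1 h9
    obtain ⟨P', hP', hi⟩ := hP'
    have h5 : HasFDerivAt Φ ((Θ : (R r × R r × V') →L[ℝ] E₁ × E₂) ∘L (P' ∘L
        (C₀.symm : (E₁ × E₂) →L[ℝ] E r))) (C₀ e₀) := by
      have h6 : HasFDerivAt P P' (C₀.symm (C₀ e₀)) := by
        rw [ContinuousLinearEquiv.symm_apply_apply]
        exact hP'
      have h7 := (Θ.hasFDerivAt (x := P (C₀.symm (C₀ e₀)))).comp (C₀ e₀)
        (h6.comp (C₀ e₀) C₀.symm.hasFDerivAt)
      refine h7.congr_of_eventuallyEq ?_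
      filter_upwards [hVo.mem_nhds hzV] with y hy
      exact hEq y hy
    rw [h5.fderiv]
    refine Pool.Agent.SmoothDegree.det_ne_zero_of_inj _ fun v hv => ?_
    have h6 : Θ (P' (C₀.symm v)) = 0 := hv
    have h7 := hi _ (Θ.map_eq_zero_iff.1 h6)
    exact C₀.symm.map_eq_zero_iff.1 h7

theorem continuous_prod (Θ : (R r × R r × V') ≃L[ℝ] E₁ × E₂) (Λ : Fib.V ≃L[ℝ] V')
    {f g : Fin r → ℍ → ℝ} (hf : ∀ i, Continuous (f i)) (hg : ∀ i, Continuous (g i)) (c : V') :
    Continuous (prod Θ Λ f g c) := by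
  have hf' : ∀ i, Continuous fun x : X r => f i (x.1 i) := fun i =>
    (hf i).comp ((continuous_apply i).comp continuous_fst)
  have hg' : ∀ i, Continuous fun x : X r => g i (x.1 i) := fun i =>
    (hg i).comp ((continuous_apply i).comp continuous_fst)
  exact Θ.continuous.comp ((continuous_pi hf').prodMk ((continuous_pi hg').prodMk
    ((Λ.continuous.comp (Fib.crd.continuous.comp continuous_snd)).sub continuous_const)))

/-- A product of planar maps with one zero each: the total degree is `1` (up to sign). -/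
theorem total_one [Nontrivial (E₁ × E₂)] (C₀ : E r ≃L[ℝ] E₁ × E₂)
    (Θ : (R r × R r × V') ≃L[ℝ] E₁ × E₂) (Λ : Fib.V ≃L[ℝ] V')
    {f g : Fin r → ℍ → ℝ} (hf : ∀ i, Continuous (f i)) (hg : ∀ i, Continuous (g i))
    {z : Fin r → ℍ} (h : ∀ i, LocReg (f i) (g i) (z i))
    (hu : ∀ i z', f i z' = 0 → g i z' = 0 → z' = z i) (c : V') :
    Total C₀ (prod Θ Λ f g c) 1 := by
  set y : Fib.W := Fib.crd.symm (Λ.symm c) with hy
  obtain ⟨V, hV, h1, h2⟩ := model_reg C₀ Θ Λ h c y
  have h0 : ∀ x : X r, prod Θ Λ f g c x = 0 → x = (z, y) := by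
    intro x hx
    have h3 := Θ.map_eq_zero_iff.1 hx
    refine Prod.ext (funext fun i => hu i _ ?_ ?_) ?_
    · exact congrFun (congrArg Prod.fst h3) i
    · exact congrFun (congrArg (fun q => q.2.1) h3) i
    · have h4 : Λ (Fib.crd x.2) - c = 0 := congrArg (fun q => q.2.2) h3
      rw [hy, ← sub_eq_zero.1 h4, ContinuousLinearEquiv.symm_apply_apply,
        Homeomorph.symm_apply_apply]
  have hw : prod Θ Λ f g c (z, y) = 0 := by
    rw [prod, Θ.map_eq_zero_iff]
    refine Prod.ext (funext fun i => (h i).zero.1) (Prod.ext (funext fun i => (h i).zero.2) ?_)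
    show Λ (Fib.crd y) - c = 0
    rw [hy, Homeomorph.apply_symm_apply, ContinuousLinearEquiv.apply_symm_apply, sub_self]
  obtain ⟨K, hK, h3⟩ := exists_compact_superset (isCompact_singleton (x := ((z, y) : X r)))
  have h4 : ((z, y) : X r) ∈ interior K := h3 rfl
  refine ⟨K, hK, fun x hx => ?_, ?_⟩
  · rw [h0 x hx]
    exact h4
  · exact degX_one C₀ (continuous_prod Θ Λ hf hg c) hK h4 hw (fun x _ hx => h0 x hx) hV h1 h2

end Pool.Agent.ANO5.A3.Tot
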