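import Pool.Agent.ANO5.A3.Tot.Loc
import Pool.Agent.ANO5.A3.Sys.CptSet
import Pool.Agent.ANO3.Tot.Pair

/-!
# ANO5, module Tot: the total degree of a pair of types

For the factors where the types are regular we take the signed distances, for the others the
coordinates `x i - z i`; the third component `c t : X r → V'` (a family, `t ∈ [0, 1]`) determines
the `W` coordinate.
-/

set_option autoImplicit false

open scoped UpperHalfPlane
open Set Filter Topology

namespace Pool.Agent.ANO5.A3.Tot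

open Pool.Agent.ANO2 (SurfaceMap)
open Pool.Agent.ANO3 (Flat IsSys)
open Pool.Agent.ANO5.A1 Pool.Agent.ANO5.A3.Conn Pool.Agent.ANO3.Tree
open Pool.Agent.ANO3.Tot (LocReg locReg_id locReg_sg cl continuous_cl cl_zero cl_one abs_sg
  abs_sg_rev sg_eq_zero sg_rev_eq_zero)

variable [Fib] {r : ℕ} {S : Fin r → SurfaceMap} {F : ∀ i, Flat (S i)} {T₀ T : X r ≃ₜ X r}

section General

theorem abs_suI (h : Setting S T₀ T) {i : Fin r} {w : ℍ} (hw : (F i).Reg w)
    (y : unitInterval × X r) :
    |suI F T₀ T i w y| = DUI F T₀ T i (Sum.inl w) (Sum.inr y) :=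
  Pool.Agent.ANO3.abs_sgn (Flat.Reg.leaf hw) (h.isSys_I i) (Sum.inr y)

theorem abs_ssI (h : Setting S T₀ T) {i : Fin r} {w : ℍ} (hw : (F i).Reg w)
    (y : unitInterval × X r) :
    |ssI F T₀ T i w y| = DSI F T₀ T i (Sum.inl w) (Sum.inr y) :=
  Pool.Agent.ANO3.abs_sgn (Flat.Reg.leaf (Flat.reg_rev.2 hw)) (h.isSys_I' i) (Sum.inr y)

theorem continuous_sg (h : Setting S T₀ T) {i : Fin r} {w : ℍ} (hw : (F i).Reg w) :
    Continuous ((F i).sg w) := by
  have h1 := (Pool.Agent.ANO3.continuous_sgn (Flat.Reg.leaf hw) (h.isSys_X i)).comp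
    continuous_inl
  refine h1.congr fun z => ?_
  exact Pool.Agent.ANO3.sgn_inl w z

theorem continuous_sg_rev (h : Setting S T₀ T) {i : Fin r} {w : ℍ} (hw : (F i).Reg w) :
    Continuous ((F i).rev.sg w) := by
  have h1 := (Pool.Agent.ANO3.continuous_sgn (Flat.Reg.leaf (Flat.reg_rev.2 hw))
    (h.isSys_X' i)).comp continuous_inl
  refine h1.congr fun z => ?_
  exact Pool.Agent.ANO3.sgn_inl w z

end General

open Classical in
/-- the first functions: the signed distances for the regular factors, `re` for the other ones -/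
noncomputable def mixU (F : ∀ i, Flat (S i)) (T₀ T : X r ≃ₜ X r) (w z : Fin r → ℍ) (t : ℝ)
    (x : X r) : R r := fun i =>
  if (F i).Reg (w i) then suI F T₀ T i (w i) (cl t, x) else (x.1 i).re - (z i).re

open Classical in
/-- the second functions: the signed distances for the regular factors, `im` for the other ones -/
noncomputable def mixS (F : ∀ i, Flat (S i)) (T₀ T : X r ≃ₜ X r) (w z : Fin r → ℍ) (t : ℝ)
    (x : X r) : R r := fun i =>
  if (F i).Reg (w i) then ssI F T₀ T i (w i) (cl t, x) else (x.1 i).im - (z i).im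

theorem continuous_mixU (h : Setting S T₀ T) (w z : Fin r → ℍ) :
    Continuous fun p : ℝ × X r => mixU F T₀ T w z p.1 p.2 := by
  refine continuous_pi fun i => ?_
  by_cases hw : (F i).Reg (w i)
  · have e : (fun p : ℝ × X r => mixU F T₀ T w z p.1 p.2 i) =
        fun p => suI F T₀ T i (w i) (cl p.1, p.2) := by
      funext p
      simp only [mixU, if_pos hw]
    rw [e]
    exact (continuous_suI h hw).comp ((continuous_cl.comp continuous_fst).prodMk continuous_snd)
  · have e : (fun p : ℝ × X r => mixU F T₀ T w z p.1 p.2 i) =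
        fun p => (p.2.1 i).re - (z i).re := by
      funext p
      simp only [mixU, if_neg hw]
    rw [e]
    exact (UpperHalfPlane.continuous_re.comp ((continuous_apply i).comp
      (continuous_fst.comp continuous_snd))).sub continuous_const

theorem continuous_mixS (h : Setting S T₀ T) (w z : Fin r → ℍ) :
    Continuous fun p : ℝ × X r => mixS F T₀ T w z p.1 p.2 := by
  refine continuous_pi fun i => ?_
  by_cases hw : (F i).Reg (w i)
  · have e : (fun p : ℝ × X r => mixS F T₀ T w z p.1 p.2 i) =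
        fun p => ssI F T₀ T i (w i) (cl p.1, p.2) := by
      funext p
      simp only [mixS, if_pos hw]
    rw [e]
    exact (continuous_ssI h hw).comp ((continuous_cl.comp continuous_fst).prodMk continuous_snd)
  · have e : (fun p : ℝ × X r => mixS F T₀ T w z p.1 p.2 i) =
        fun p => (p.2.1 i).im - (z i).im := by
      funext p
      simp only [mixS, if_neg hw]
    rw [e]
    exact (UpperHalfPlane.continuous_im.comp ((continuous_apply i).comp
      (continuous_fst.comp continuous_snd))).sub continuous_const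

variable {V' : Type} [NormedAddCommGroup V'] [NormedSpace ℝ V']

/-- The third component `c` determines the `W` coordinate up to a compact set. -/
def Bdd (c : ℝ → X r → V') : Prop :=
  ∀ K : Fin r → Set ℍ, (∀ i, IsCompact (K i)) → ∃ L : Set Fib.W, IsCompact L ∧
    ∀ t ∈ Icc (0 : ℝ) 1, ∀ x : X r, (∀ i, x.1 i ∈ K i) → c t x = 0 → x.2 ∈ L

/-- compactness of the zero set of the family, for two types with the same regular factors -/
theorem compact_mix (h : Setting S T₀ T) {w' w'' z : Fin r → ℍ}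
    (hw : ∀ i, (F i).Reg (w' i) ↔ (F i).Reg (w'' i)) {c : ℝ → X r → V'}
    (hc : Continuous fun p : ℝ × X r => c p.1 p.2) (hb : Bdd c) :
    IsCompact {p : ℝ × X r | p.1 ∈ Icc (0 : ℝ) 1 ∧ mixU F T₀ T w' z p.1 p.2 = 0 ∧
      mixS F T₀ T w'' z p.1 p.2 = 0 ∧ c p.1 p.2 = 0} := by
  have hK : ∀ i, ∃ K : Set ℍ, IsCompact K ∧ ∀ (t : ℝ) (x : X r),
      mixU F T₀ T w' z t x i = 0 → mixS F T₀ T w'' z t x i = 0 → x.1 i ∈ K := by
    intro i
    by_cases hi : (F i).Reg (w' i)
    · obtain ⟨ε, hε, K, hK, h1⟩ := bounded_I h i (w'' := w'' i) hi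
      refine ⟨K, hK, fun t x hx hy => h1 (cl t, x) ?_ ?_⟩
      · simp only [mixU, if_pos hi] at hx
        rw [← abs_suI h hi, hx, abs_zero]
        exact hε.le
      · simp only [mixS, if_pos ((hw i).1 hi)] at hy
        rw [← abs_ssI h ((hw i).1 hi), hy, abs_zero]
        exact hε.le
    · refine ⟨{z i}, isCompact_singleton, fun t x hx hy => ?_⟩
      simp only [mixU, if_neg hi] at hx
      simp only [mixS, if_neg fun h => hi ((hw i).2 h)] at hy
      exact UpperHalfPlane.ext (Complex.ext (sub_eq_zero.1 hx) (sub_eq_zero.1 hy))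
  choose K hK h1 using hK
  obtain ⟨L, hL, h3⟩ := hb K hK
  have h2 : IsCompact (Icc (0 : ℝ) 1 ×ˢ ((univ.pi K) ×ˢ L : Set (X r))) :=
    isCompact_Icc.prod ((isCompact_univ_pi hK).prod hL)
  refine h2.of_isClosed_subset ?_ ?_
  · refine IsClosed.inter (isClosed_Icc.preimage continuous_fst)
      (IsClosed.inter ?_ (IsClosed.inter ?_ ?_))
    · exact isClosed_singleton.preimage (continuous_mixU h w' z)
    · exact isClosed_singleton.preimage (continuous_mixS h w'' z)
    · exact isClosed_singleton.preimage hc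
  · rintro ⟨t, x⟩ ⟨ht, hx, hy, hz⟩
    have h4 : ∀ i, x.1 i ∈ K i := fun i => h1 i t x (congrFun hx i) (congrFun hy i)
    exact ⟨ht, fun i _ => h4 i, h3 t ht x h4 hz⟩

variable {E₁ E₂ : Type} [NormedAddCommGroup E₁] [NormedSpace ℝ E₁]
  [NormedAddCommGroup E₂] [NormedSpace ℝ E₂] [FiniteDimensional ℝ E₁] [FiniteDimensional ℝ E₂]
  [Nontrivial (E₁ × E₂)]

/-- the total degree along the family -/
theorem total_mix_of (h : Setting S T₀ T) (C₀ : E r ≃L[ℝ] E₁ × E₂)
    (Θ : (R r × R r × V') ≃L[ℝ] E₁ × E₂) {w' w'' z : Fin r → ℍ}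
    (hw : ∀ i, (F i).Reg (w' i) ↔ (F i).Reg (w'' i)) {c : ℝ → X r → V'}
    (hc : Continuous fun p : ℝ × X r => c p.1 p.2) (hb : Bdd c) {d : ℕ}
    (h0 : Total C₀ (fun x => Θ (mixU F T₀ T w' z 0 x, mixS F T₀ T w'' z 0 x, c 0 x)) d) :
    Total C₀ (fun x => Θ (mixU F T₀ T w' z 1 x, mixS F T₀ T w'' z 1 x, c 1 x)) d := by
  refine total_of_homotopy C₀
    (Φ := fun t x => Θ (mixU F T₀ T w' z t x, mixS F T₀ T w'' z t x, c t x))
    (Θ.continuous.comp ((continuous_mixU h w' z).prodMk
      ((continuous_mixS h w'' z).prodMk hc))) ?_ h0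
  convert compact_mix (F := F) h hw (z := z) hc hb using 1
  ext p
  simp only [mem_ofPred_eq, Θ.map_eq_zero_iff, Prod.mk_eq_zero]

/-- The total degree of the start of the family, for planar functions which do not depend on the
parameter. -/
theorem total_start (C₀ : E r ≃L[ℝ] E₁ × E₂) (Θ : (R r × R r × V') ≃L[ℝ] E₁ × E₂)
    {f g : Fin r → ℍ → ℝ} (hf : ∀ i, Continuous (f i)) (hg : ∀ i, Continuous (g i))
    {z : Fin r → ℍ} (hu : ∀ i z', f i z' = 0 → g i z' = 0 → z' = z i) {c : ℝ → X r → V'}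
    (hc : Continuous fun p : ℝ × X r => c p.1 p.2) (hb : Bdd c) {d : ℕ}
    (h0 : Total C₀ (fun x => Θ (fun i => f i (x.1 i), fun i => g i (x.1 i), c 0 x)) d) :
    Total C₀ (fun x => Θ (fun i => f i (x.1 i), fun i => g i (x.1 i), c 1 x)) d := by
  have hf' : Continuous fun p : ℝ × X r => fun i => f i (p.2.1 i) := continuous_pi fun i =>
    (hf i).comp ((continuous_apply i).comp (continuous_fst.comp continuous_snd))
  have hg' : Continuous fun p : ℝ × X r => fun i => g i (p.2.1 i) := continuous_pi fun i =>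
    (hg i).comp ((continuous_apply i).comp (continuous_fst.comp continuous_snd))
  refine total_of_homotopy C₀
    (Φ := fun t x => Θ (fun i => f i (x.1 i), fun i => g i (x.1 i), c t x))
    (Θ.continuous.comp (hf'.prodMk (hg'.prodMk hc))) ?_ h0
  obtain ⟨L, hL, h3⟩ := hb (fun i => {z i}) fun i => isCompact_singleton
  have h2 : IsCompact (Icc (0 : ℝ) 1 ×ˢ ((univ.pi fun i => {z i}) ×ˢ L : Set (X r))) :=
    isCompact_Icc.prod ((isCompact_univ_pi fun i => isCompact_singleton).prod hL)
  refine h2.of_isClosed_subset ?_ ?_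
  · refine IsClosed.inter (isClosed_Icc.preimage continuous_fst) ?_
    exact isClosed_singleton.preimage
      (Θ.continuous.comp (hf'.prodMk (hg'.prodMk hc)))
  · rintro ⟨t, x⟩ ⟨ht, hx⟩
    rw [Θ.map_eq_zero_iff] at hx
    have h4 : ∀ i, x.1 i ∈ ({z i} : Set ℍ) := fun i =>
      hu i _ (congrFun (congrArg Prod.fst hx) i) (congrFun (congrArg (fun q => q.2.1) hx) i)
    exact ⟨ht, fun i _ => h4 i, h3 t ht x h4 (congrArg (fun q => q.2.2) hx)⟩

/-- The total degree of the mixed family, `w'` and `w''` regular at the same factors, the model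
leaves meet at the regular factors. -/
theorem total_mix (h : Setting S T₀ T) (C₀ : E r ≃L[ℝ] E₁ × E₂)
    (Θ : (R r × R r × V') ≃L[ℝ] E₁ × E₂) {w' w'' z : Fin r → ℍ}
    (hw : ∀ i, (F i).Reg (w' i) ↔ (F i).Reg (w'' i))
    (hz : ∀ i, (F i).Reg (w' i) → (F i).du (w' i) (z i) = 0 ∧ (F i).ds (w'' i) (z i) = 0)
    {c : ℝ → X r → V'} (hc : Continuous fun p : ℝ × X r => c p.1 p.2) (hb : Bdd c)
    {c₀ : ℝ → X r → V'} (hc₀ : Continuous fun p : ℝ × X r => c₀ p.1 p.2) (hb₀ : Bdd c₀)
    (h1 : ∀ x, c₀ 1 x = c 0 x) (Λ : Fib.V ≃L[ℝ] V') (e : V')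
    (h0 : ∀ x, c₀ 0 x = Λ (Fib.crd x.2) - e) :
    Total C₀ (fun x => Θ (mixU F T₀ T w' z 1 x, mixS F T₀ T w'' z 1 x, c 1 x)) 1 := by
  classical
  refine total_mix_of h C₀ Θ hw hc hb ?_
  set f : Fin r → ℍ → ℝ := fun i =>
    if (F i).Reg (w' i) then (F i).sg (w' i) else fun x => x.re - (z i).re with hf
  set g : Fin r → ℍ → ℝ := fun i =>
    if (F i).Reg (w' i) then (F i).rev.sg (w'' i) else fun x => x.im - (z i).im with hg
  have hfc : ∀ i, Continuous (f i) := by
    intro i
    by_cases hi : (F i).Reg (w' i)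
    · simp only [hf, if_pos hi]
      exact continuous_sg h hi
    · simp only [hf, if_neg hi]
      exact UpperHalfPlane.continuous_re.sub continuous_const
  have hgc : ∀ i, Continuous (g i) := by
    intro i
    by_cases hi : (F i).Reg (w' i)
    · simp only [hg, if_pos hi]
      exact continuous_sg_rev h ((hw i).1 hi)
    · simp only [hg, if_neg hi]
      exact UpperHalfPlane.continuous_im.sub continuous_const
  have hU0 : ∀ x, mixU F T₀ T w' z 0 x = fun i => f i (x.1 i) := by
    intro x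
    funext i
    by_cases hi : (F i).Reg (w' i)
    · simp only [mixU, hf, if_pos hi, cl_zero, suI_zero F h]
    · simp only [mixU, hf, if_neg hi]
  have hS0 : ∀ x, mixS F T₀ T w'' z 0 x = fun i => g i (x.1 i) := by
    intro x
    funext i
    by_cases hi : (F i).Reg (w' i)
    · simp only [mixS, hg, if_pos hi, if_pos ((hw i).1 hi), cl_zero, ssI_zero F h]
    · simp only [mixS, hg, if_neg hi, if_neg fun h => hi ((hw i).2 h)]
  have hreg : ∀ i, LocReg (f i) (g i) (z i) := by
    intro i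
    by_cases hi : (F i).Reg (w' i)
    · simp only [hf, hg, if_pos hi]
      exact locReg_sg hi ((hw i).1 hi) (hz i hi).1 (hz i hi).2
    · simp only [hf, hg, if_neg hi]
      exact locReg_id (z i)
  have hun : ∀ i z', f i z' = 0 → g i z' = 0 → z' = z i := by
    intro i z' h1 h2
    by_cases hi : (F i).Reg (w' i)
    · simp only [hf, hg, if_pos hi] at h1 h2
      rw [sg_eq_zero hi] at h1
      rw [sg_rev_eq_zero ((hw i).1 hi)] at h2
      have h3 := hi.leaf_u (hz i hi).1
      refine (F i).eq_of_zero h3 ?_ ?_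
      · rw [← (F i).isTree_u.congr_left (hz i hi).1]
        exact h1
      · rw [← (F i).isTree_s.congr_left (hz i hi).2]
        exact h2
    · simp only [hf, hg, if_neg hi] at h1 h2
      exact UpperHalfPlane.ext (Complex.ext (sub_eq_zero.1 h1) (sub_eq_zero.1 h2))
  have h2 := total_one C₀ Θ Λ hfc hgc hreg hun e
  have h3 : Total C₀ (fun x => Θ (fun i => f i (x.1 i), fun i => g i (x.1 i), c₀ 0 x)) 1 := by
    simp only [h0]
    exact h2
  have h4 := total_start C₀ Θ hfc hgc hun hc₀ hb₀ h3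
  simpa only [hU0, hS0, h1] using h4

/-- Some of the model leaves do not meet: the total degree is `0`. -/
theorem total_mix_zero (h : Setting S T₀ T) (C₀ : E r ≃L[ℝ] E₁ × E₂)
    (Θ : (R r × R r × V') ≃L[ℝ] E₁ × E₂) {w' w'' z : Fin r → ℍ}
    (hw : ∀ i, (F i).Reg (w' i) ↔ (F i).Reg (w'' i)) {i : Fin r} (hi : (F i).Reg (w' i))
    (hz : ∀ z, ¬ ((F i).du (w' i) z = 0 ∧ (F i).ds (w'' i) z = 0))
    {c : ℝ → X r → V'} (hc : Continuous fun p : ℝ × X r => c p.1 p.2) (hb : Bdd c) :
    Total C₀ (fun x => Θ (mixU F T₀ T w' z 1 x, mixS F T₀ T w'' z 1 x, c 1 x)) 0 := by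
  have hone : Continuous fun x : X r => ((0 : ℝ), x) := by fun_prop
  refine total_mix_of h C₀ Θ hw hc hb (total_zero C₀ ?_ fun x hx => ?_)
  · exact Θ.continuous.comp (((continuous_mixU h w' z).comp hone).prodMk
      (((continuous_mixS h w'' z).comp hone).prodMk (hc.comp hone)))
  · rw [Θ.map_eq_zero_iff] at hx
    have h4 : mixU F T₀ T w' z 0 x i = 0 := congrFun (congrArg Prod.fst hx) i
    have h5 : mixS F T₀ T w'' z 0 x i = 0 := congrFun (congrArg (fun q => q.2.1) hx) i
    simp only [mixU, if_pos hi, cl_zero, suI_zero F h] at h4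
    simp only [mixS, if_pos ((hw i).1 hi), cl_zero, ssI_zero F h] at h5
    exact hz (x.1 i) ⟨(sg_eq_zero hi _).1 h4, (sg_rev_eq_zero ((hw i).1 hi) _).1 h5⟩

theorem mixU_eq {w z : Fin r → ℍ} (hw : ∀ i, (F i).Reg (w i)) (x : X r) :
    mixU F T₀ T w z 1 x = fun i => su F T i (w i) x := by
  funext i
  simp only [mixU, if_pos (hw i), cl_one, suI_one]

theorem mixS_eq {w z : Fin r → ℍ} (hw : ∀ i, (F i).Reg (w i)) (x : X r) :
    mixS F T₀ T w z 1 x = fun i => ss F T i (w i) x := by
  funext i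
  simp only [mixS, if_pos (hw i), cl_one, ssI_one]

end Pool.Agent.ANO5.A3.Tot
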