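import Pool.Agent.ANO5.A3.Tot.Mix

/-!
# ANO5, module Tot: existence of points

For every type `w`, every `z : Fin r → ℍ` and every `y : W` there is a point `x` in the u-leaves
and s-leaves of the `w i` for the factors where `w` is regular, with `x i = z i` for the other
factors and `x.2 = y` (`exists_fibre`), or with `c 1 x = 0` for a third component `c` as in `Mix`
(`exists_point`).
-/

set_option autoImplicit false

open scoped UpperHalfPlane
open Set Filter Topology

namespace Pool.Agent.ANO5.A3.Tot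

open Pool.Agent.ANO2 (SurfaceMap)
open Pool.Agent.ANO3 (Flat)
open Pool.Agent.ANO5.A1 Pool.Agent.ANO5.A3.Conn Pool.Agent.ANO3.Tree
open Pool.Agent.ANO3.Tot (cl_one)

variable [Fib] {r : ℕ} {S : Fin r → SurfaceMap} {F : ∀ i, Flat (S i)} {T₀ T : X r ≃ₜ X r}
  {V' : Type} [NormedAddCommGroup V'] [NormedSpace ℝ V']

theorem exists_coord (Λ : Fib.V ≃L[ℝ] V') : Nonempty (E r ≃L[ℝ] R r × (R r × V')) := by
  have : FiniteDimensional ℝ V' := Λ.toLinearEquiv.finiteDimensional
  refine ⟨ContinuousLinearEquiv.ofFinrankEq ?_⟩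
  rw [Module.finrank_prod, Module.finrank_prod, Module.finrank_prod, Module.finrank_pi_fintype,
    Module.finrank_fin_fun, ← Λ.toLinearEquiv.finrank_eq]
  simp
  ring

/-- A point with given data. -/
theorem exists_point [Nontrivial (E r)] (h : Setting S T₀ T) (w z : Fin r → ℍ)
    {c : ℝ → X r → V'} (hc : Continuous fun p : ℝ × X r => c p.1 p.2) (hb : Bdd c)
    {c₀ : ℝ → X r → V'} (hc₀ : Continuous fun p : ℝ × X r => c₀ p.1 p.2) (hb₀ : Bdd c₀)
    (h1 : ∀ x, c₀ 1 x = c 0 x) (Λ : Fib.V ≃L[ℝ] V') (e : V')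
    (h0 : ∀ x, c₀ 0 x = Λ (Fib.crd x.2) - e) :
    ∃ x : X r, (∀ i, ((F i).Reg (w i) → DU F T i (Sum.inl (w i)) (Sum.inr x) = 0 ∧
      DS F T i (Sum.inl (w i)) (Sum.inr x) = 0) ∧ (¬ (F i).Reg (w i) → x.1 i = z i)) ∧
      c 1 x = 0 := by
  classical
  have hfin : FiniteDimensional ℝ V' := Λ.toLinearEquiv.finiteDimensional
  obtain ⟨C₀⟩ := exists_coord (r := r) Λ
  have hn : Nontrivial (R r × (R r × V')) := C₀.injective.nontrivial
  obtain ⟨z', hz', hz''⟩ : ∃ z' : Fin r → ℍ, (∀ i, (F i).Reg (w i) → z' i = w i) ∧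
      ∀ i, ¬ (F i).Reg (w i) → z' i = z i := by
    refine ⟨fun i => if (F i).Reg (w i) then w i else z i, fun i hi => ?_, fun i hi => ?_⟩
    · simp only [if_pos hi]
    · simp only [if_neg hi]
  have h2 := total_mix (F := F) h C₀ (ContinuousLinearEquiv.refl ℝ (R r × (R r × V')))
    (w' := w) (w'' := w) (z := z') (fun i => Iff.rfl) (fun i hi => by
      rw [hz' i hi]
      exact ⟨(F i).isTree_u.self _, (F i).isTree_s.self _⟩) hc hb hc₀ hb₀ h1 Λ e h0
  have hone : Continuous fun x : X r => ((1 : ℝ), x) := by fun_prop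
  obtain ⟨x, hx⟩ := Total.exists_zero h2 one_ne_zero
    (((continuous_mixU (F := F) h w z').comp hone).prodMk
      (((continuous_mixS (F := F) h w z').comp hone).prodMk (hc.comp hone)))
  have hx1 : mixU F T₀ T w z' 1 x = 0 := congrArg Prod.fst hx
  have hx2 : mixS F T₀ T w z' 1 x = 0 := congrArg (fun q => q.2.1) hx
  have hx3 : c 1 x = 0 := congrArg (fun q => q.2.2) hx
  refine ⟨x, fun i => ⟨fun hi => ?_, fun hi => ?_⟩, hx3⟩
  · have h2 := congrFun hx1 i
    have h3 := congrFun hx2 i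
    simp only [mixU, if_pos hi, cl_one, suI_one, Pi.zero_apply] at h2
    simp only [mixS, if_pos hi, cl_one, ssI_one, Pi.zero_apply] at h3
    rw [← abs_su h hi, ← abs_ss h hi, h2, h3, abs_zero]
    exact ⟨rfl, rfl⟩
  · have h2 := congrFun hx1 i
    have h3 := congrFun hx2 i
    simp only [mixU, if_neg hi, Pi.zero_apply] at h2
    simp only [mixS, if_neg hi, Pi.zero_apply] at h3
    rw [← hz'' i hi]
    exact UpperHalfPlane.ext (Complex.ext (sub_eq_zero.1 h2) (sub_eq_zero.1 h3))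

theorem continuous_crdSub (y : Fib.W) :
    Continuous fun p : ℝ × X r => Fib.crd p.2.2 - Fib.crd y :=
  (Fib.crd.continuous.comp (continuous_snd.comp continuous_snd)).sub continuous_const

theorem bdd_crdSub (y : Fib.W) : Bdd (r := r) fun _ x => Fib.crd x.2 - Fib.crd y :=
  fun _ _ => ⟨{y}, isCompact_singleton, fun _ _ _ _ h0 => Fib.crd.injective (sub_eq_zero.1 h0)⟩

/-- A point with given `W` coordinate. -/
theorem exists_fibre (h : Setting S T₀ T) (w z : Fin r → ℍ) (y : Fib.W) :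
    ∃ x : X r, (∀ i, ((F i).Reg (w i) → DU F T i (Sum.inl (w i)) (Sum.inr x) = 0 ∧
      DS F T i (Sum.inl (w i)) (Sum.inr x) = 0) ∧ (¬ (F i).Reg (w i) → x.1 i = z i)) ∧
      x.2 = y := by
  rcases Nat.eq_zero_or_pos r with rfl | hr
  · exact ⟨(z, y), fun i => i.elim0, rfl⟩
  have hn : Nontrivial (E r) := by
    refine ⟨⟨(fun _ => 1, 0), 0, fun h => ?_⟩⟩
    exact one_ne_zero (congrFun (congrArg Prod.fst h) (⟨0, hr⟩ : Fin r))
  obtain ⟨x, hx, hy⟩ := exists_point (F := F) h w z (continuous_crdSub y) (bdd_crdSub y)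
    (continuous_crdSub y) (bdd_crdSub y) (fun _ => rfl) (ContinuousLinearEquiv.refl ℝ Fib.V)
    (Fib.crd y) fun _ => rfl
  exact ⟨x, hx, Fib.crd.injective (sub_eq_zero.1 hy)⟩

/-- the pseudo-distances of a void factor vanish -/
theorem zero_of_void (h : Setting S T₀ T) {i : Fin r} (hi : (F i).U = ∅)
    (a : ℍ) (x : X r) : DU F T i (Sum.inl a) (Sum.inr x) = 0 ∧
      DS F T i (Sum.inl a) (Sum.inr x) = 0 := by
  constructor
  · refine le_antisymm (le_of_forall_pos_le_add fun ε hε => ?_)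
      ((isTree_DU (F := F) h i).nonneg _ _)
    obtain ⟨y, hy⟩ := DU_near (F := F) h i (Sum.inr x) hε
    have h1 := (isTree_DU (F := F) h i).triangle (Sum.inl a) (Sum.inl y) (Sum.inr x)
    rw [DU_inl, ((F i).zero_of_empty hi a y).1] at h1
    linarith
  · refine le_antisymm (le_of_forall_pos_le_add fun ε hε => ?_)
      ((isTree_DS (F := F) h i).nonneg _ _)
    obtain ⟨y, hy⟩ := DS_near (F := F) h i (Sum.inr x) hε
    have h1 := (isTree_DS (F := F) h i).triangle (Sum.inl a) (Sum.inl y) (Sum.inr x)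
    rw [DS_inl, ((F i).zero_of_empty hi a y).2] at h1
    linarith

/-- `w` is regular at the factors which are not void. -/
def IsFull (F : ∀ i, Flat (S i)) (w : Fin r → ℍ) : Prop :=
  ∀ i, (F i).U.Nonempty → (F i).Reg (w i)

theorem exists_isFull (F : ∀ i, Flat (S i)) : ∃ w : Fin r → ℍ, IsFull F w := by
  have hw : ∀ j, ∃ w, ((F j).U.Nonempty → (F j).Reg w) := fun j => by
    by_cases hj : (F j).U.Nonempty
    · obtain ⟨w, hw⟩ := Flat.exists_reg (F := F j) hj
      exact ⟨w, fun _ => hw⟩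
    · exact ⟨UpperHalfPlane.I, fun h => absurd h hj⟩
  choose w hw using hw
  exact ⟨w, hw⟩

theorem IsFull.isType {w : Fin r → ℍ} (hw : IsFull F w) : IsType F w := fun j => by
  by_cases hj : (F j).U.Nonempty
  · exact Or.inl (hw j hj)
  · right
    rw [not_nonempty_iff_eq_empty] at hj
    rw [hj]
    exact notMem_empty _

theorem not_reg_of_void {i : Fin r} (hi : (F i).U = ∅) (w : ℍ) : ¬ (F i).Reg w := fun hR => by
  have := hR.1
  rw [hi] at this
  exact this

theorem mem_NN_of_full (h : Setting S T₀ T) {w : Fin r → ℍ} (hw : IsFull F w) {x : X r}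
    (hx : ∀ i, (F i).Reg (w i) → DU F T i (Sum.inl (w i)) (Sum.inr x) = 0 ∧
      DS F T i (Sum.inl (w i)) (Sum.inr x) = 0) : x ∈ NN F T w w := fun j => by
  by_cases hj : (F j).U.Nonempty
  · exact hx j (hw j hj)
  · rw [not_nonempty_iff_eq_empty] at hj
    exact zero_of_void h hj _ _

/-- `NN F T w w` meets every fibre. -/
theorem exists_fibre_NN (h : Setting S T₀ T) {w : Fin r → ℍ} (hw : IsFull F w)
    (z : Fin r → ℍ) (y : Fib.W) :
    ∃ x ∈ NN F T w w, (∀ i, (F i).U = ∅ → x.1 i = z i) ∧ x.2 = y := by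
  obtain ⟨x, hx, hy⟩ := exists_fibre (F := F) h w z y
  exact ⟨x, mem_NN_of_full h hw fun i hi => (hx i).1 hi,
    fun i hi => (hx i).2 (not_reg_of_void hi _), hy⟩

theorem not_countable_uhp : ¬ (univ : Set ℍ).Countable := by
  intro h
  have h1 : ((fun z : ℍ => z.re) '' univ).Countable := h.image _
  have h2 : ((fun z : ℍ => z.re) '' univ) = (univ : Set ℝ) := by
    refine eq_univ_of_forall fun t => ?_
    exact ⟨⟨⟨t, 1⟩, one_pos⟩, mem_univ _, rfl⟩
  rw [h2] at h1
  exact Cardinal.not_countable_real h1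

end Pool.Agent.ANO5.A3.Tot
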